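import Pool.Agent.Q8.Root.Top

/-!
# The set of `p`-th roots of a nilpotent quaternionic matrix is path-connected

Idea. Units of the centraliser of a nilpotent quaternionic matrix `A` are joined to `1` inside the
centraliser, so two conjugate `p`-th roots of `A` are joined in `A ^ (1/p)`. If two Jordan blocks of
a root have sizes strictly between two consecutive multiples of `p`, an explicit polynomial path
inside `A ^ (1/p)` makes the larger one longer by one and the smaller one shorter by one. A root in
which no such pair is left has a Jordan type determined by the ranks of the powers of `A`.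
-/

namespace Pool.Agent.Results.MP_6980f8_al.PathConnected

open Quaternion

/-- For every `n`, every nilpotent `A ∈ Mₙ(ℍ)` and every positive integer `p`, the set
`{X ∈ Mₙ(ℍ) : X ^ p = A}` is path-connected as soon as it is nonempty. -/
theorem result (n : ℕ) (A : Matrix (Fin n) (Fin n) ℍ[ℝ]) (hA : IsNilpotent A) (p : ℕ)
    (hp : 0 < p) (hne : {X : Matrix (Fin n) (Fin n) ℍ[ℝ] | X ^ p = A}.Nonempty) :
    IsPathConnected {X : Matrix (Fin n) (Fin n) ℍ[ℝ] | X ^ p = A} :=
  Q8.Root.main n A hA p hp hne

end Pool.Agent.Results.MP_6980f8_al.PathConnected
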